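import Mathlib

set_option autoImplicit false

namespace Pool.Agent.H48Sid

open Finset

/-- `S` is a Sidon set of natural numbers. -/
def SidonSet (S : Set ℕ) : Prop :=
  ∀ a ∈ S, ∀ b ∈ S, ∀ c ∈ S, ∀ d ∈ S,
    a + b = c + d → (a = c ∧ b = d) ∨ (a = d ∧ b = c)

/-- `m` is a sum of three elements of `S`, each at distance at most `L` from `m/3` -/
def Rep (S : Set ℕ) (m : ℕ) (L : ℝ) : Prop :=
  ∃ s₁ ∈ S, ∃ s₂ ∈ S, ∃ s₃ ∈ S, s₁ + s₂ + s₃ = m ∧
    |(s₁ : ℝ) - (m : ℝ) / 3| ≤ L ∧ |(s₂ : ℝ) - (m : ℝ) / 3| ≤ L ∧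
    |(s₃ : ℝ) - (m : ℝ) / 3| ≤ L

/-- `θ` is admissible, in the words of the problem file: `0 < θ < 1` and there are an infinite
Sidon set `S` of positive integers and constants `C > 0`, `N` such that every `m ≥ N` is a sum of
three elements of `S`, each at distance at most `C m^θ` from `m/3`. -/
def Admissible (θ : ℝ) : Prop :=
  0 < θ ∧ θ < 1 ∧ ∃ S : Set ℕ, S.Infinite ∧ (∀ s ∈ S, 1 ≤ s) ∧ SidonSet S ∧
    ∃ C : ℝ, 0 < C ∧ ∃ N : ℕ, ∀ m : ℕ, N ≤ m → Rep S m (C * (m : ℝ) ^ θ)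

open Classical in
/-- number of elements of `S` in `[a, b)` -/
noncomputable def cnt (S : Set ℕ) (a b : ℕ) : ℕ := ((Finset.Ico a b).filter (· ∈ S)).card

lemma cnt_add (S : Set ℕ) (a b c : ℕ) (h1 : a ≤ b) (h2 : b ≤ c) :
    cnt S a c = cnt S a b + cnt S b c := by
  classical
  unfold cnt
  rw [← Finset.card_union_of_disjoint]
  · congr 1
    rw [← Finset.filter_union, Finset.Ico_union_Ico_eq_Ico h1 h2]
  · exact Finset.disjoint_filter_filter (Finset.Ico_disjoint_Ico_consecutive a b c)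

lemma cnt_mono (S : Set ℕ) (a b c : ℕ) (h2 : b ≤ c) : cnt S a b ≤ cnt S a c := by
  classical
  unfold cnt
  apply Finset.card_le_card
  apply Finset.filter_subset_filter
  exact Finset.Ico_subset_Ico_right h2

/-- all `3 ℓ` integers `m` in `[3(w+ℓ), 3(w+2ℓ))` come from triples in `[w, w+3ℓ)` -/
lemma window_count (S : Set ℕ) (w ℓ : ℕ) (L : ℝ) (hL : L ≤ ℓ)
    (h : ∀ m : ℕ, 3 * (w + ℓ) ≤ m → m < 3 * (w + 2 * ℓ) →
      ∃ s₁ ∈ S, ∃ s₂ ∈ S, ∃ s₃ ∈ S, s₁ + s₂ + s₃ = m ∧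
        |(s₁ : ℝ) - (m : ℝ) / 3| ≤ L ∧ |(s₂ : ℝ) - (m : ℝ) / 3| ≤ L ∧
        |(s₃ : ℝ) - (m : ℝ) / 3| ≤ L) :
    3 * ℓ ≤ (cnt S w (w + 3 * ℓ)) ^ 3 := by
  classical
  set A : Finset ℕ := (Finset.Ico w (w + 3 * ℓ)).filter (· ∈ S) with hA
  have hsub : Finset.Ico (3 * (w + ℓ)) (3 * (w + 2 * ℓ)) ⊆
      (A ×ˢ A ×ˢ A).image (fun p => p.1 + p.2.1 + p.2.2) := by
    intro m hm
    rw [Finset.mem_Ico] at hm
    obtain ⟨s₁, h1, s₂, h2, s₃, h3, hs, b1, b2, b3⟩ := h m hm.1 hm.2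
    have hm1 : (3 : ℝ) * (w + ℓ) ≤ m := by exact_mod_cast hm.1
    have hm2 : (m : ℝ) < 3 * (w + 2 * ℓ) := by exact_mod_cast hm.2
    have key : ∀ s : ℕ, s ∈ S → |(s : ℝ) - (m : ℝ) / 3| ≤ L → s ∈ A := by
      intro s hs hb
      rw [abs_le] at hb
      rw [hA, Finset.mem_filter, Finset.mem_Ico]
      refine ⟨⟨?_, ?_⟩, hs⟩
      · have : (w : ℝ) ≤ s := by linarith
        exact_mod_cast this
      · have : (s : ℝ) < w + 3 * ℓ := by linarith
        exact_mod_cast this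
    rw [Finset.mem_image]
    refine ⟨(s₁, s₂, s₃), ?_, hs⟩
    simp only [Finset.mem_product]
    exact ⟨key s₁ h1 b1, key s₂ h2 b2, key s₃ h3 b3⟩
  have hc := Finset.card_le_card hsub
  rw [Nat.card_Ico] at hc
  have hc2 : ((A ×ˢ A ×ˢ A).image (fun p => p.1 + p.2.1 + p.2.2)).card ≤ (A ×ˢ A ×ˢ A).card :=
    Finset.card_image_le
  rw [Finset.card_product, Finset.card_product] at hc2
  have e : cnt S w (w + 3 * ℓ) = A.card := rfl
  rw [e]
  have e2 : A.card ^ 3 = A.card * (A.card * A.card) := by ring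
  rw [e2]
  omega

/-- `K` consecutive windows of length `t` with at least `k` elements each -/
lemma many_windows (S : Set ℕ) (w t k K : ℕ)
    (h : ∀ i < K, k ≤ cnt S (w + i * t) (w + i * t + t)) : K * k ≤ cnt S w (w + K * t) := by
  induction K with
  | zero => simp
  | succ K ih =>
    have h1 := ih (fun i hi => h i (by omega))
    have h2 := h K (by omega)
    have e : w + (K + 1) * t = w + K * t + t := by ring
    rw [e, cnt_add S w (w + K * t) (w + K * t + t) (by omega) (by omega)]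
    have : (K + 1) * k = K * k + k := by ring
    omega

/-- Pairs inside blocks of length `N` have distinct differences. -/
lemma block_pairs (S : Set ℕ) (hS : SidonSet S) (N J : ℕ) :
    ∑ j ∈ Finset.range J,
      ((cnt S (j * N) ((j + 1) * N)) * (cnt S (j * N) ((j + 1) * N)) -
        cnt S (j * N) ((j + 1) * N)) ≤ 2 * N := by
  classical
  set A : ℕ → Finset ℕ := fun j => (Finset.Ico (j * N) ((j + 1) * N)).filter (· ∈ S) with hA
  have hAm : ∀ j a, a ∈ A j ↔ (j * N ≤ a ∧ a < (j + 1) * N) ∧ a ∈ S := by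
    intro j a
    simp only [hA, Finset.mem_filter, Finset.mem_Ico]
  have e : ∑ j ∈ Finset.range J,
      ((cnt S (j * N) ((j + 1) * N)) * (cnt S (j * N) ((j + 1) * N)) -
        cnt S (j * N) ((j + 1) * N)) = ((Finset.range J).sigma (fun j => (A j).offDiag)).card := by
    rw [Finset.card_sigma]
    apply Finset.sum_congr rfl
    intro j _
    rw [Finset.offDiag_card]
    rfl
  rw [e]
  have hcard : (Finset.Ioo (-(N : ℤ)) (N : ℤ)).card ≤ 2 * N := by
    rw [Int.card_Ioo]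
    omega
  refine le_trans ?_ hcard
  apply Finset.card_le_card_of_injOn (fun x => ((x.2.1 : ℤ) - (x.2.2 : ℤ)))
  · rintro ⟨j, a, b⟩ hx
    simp only [Finset.coe_sigma, Set.mem_sigma_iff, Finset.mem_coe, Finset.mem_offDiag, hAm] at hx
    obtain ⟨_, ⟨⟨h1, h2⟩, _⟩, ⟨⟨h3, h4⟩, _⟩, _⟩ := hx
    simp only [Finset.coe_Ioo, Set.mem_Ioo]
    have e1 : (j + 1) * N = j * N + N := by ring
    rw [e1] at h2 h4
    constructor <;> omega
  · rintro ⟨j, a, b⟩ hx ⟨j', a', b'⟩ hx' hE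
    simp only [Finset.coe_sigma, Set.mem_sigma_iff, Finset.mem_coe, Finset.mem_offDiag, hAm]
      at hx hx'
    obtain ⟨_, ⟨⟨h1, h2⟩, ha⟩, ⟨⟨h3, h4⟩, hb⟩, hne⟩ := hx
    obtain ⟨_, ⟨⟨h1', h2'⟩, ha'⟩, ⟨⟨h3', h4'⟩, hb'⟩, hne'⟩ := hx'
    simp only at hE
    have hsum : a + b' = a' + b := by omega
    rcases hS a ha b' hb' a' ha' b hb hsum with ⟨e1, e2⟩ | ⟨e1, e2⟩
    · subst e1
      subst e2
      have hj : j = j' := by
        have hN : 0 < N := by
          rcases Nat.eq_zero_or_pos N with h0 | h0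
          · subst h0; simp at h2
          · exact h0
        have t1 : a / N = j := by
          apply Nat.div_eq_of_lt_le
          · exact h1
          · exact h2
        have t2 : a / N = j' := by
          apply Nat.div_eq_of_lt_le
          · exact h1'
          · exact h2'
        omega
      subst hj
      rfl
    · exact absurd e1 hne

end Pool.Agent.H48Sid
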