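import Pool.Agent.H48Sid.Lower

set_option autoImplicit false

namespace Pool.Agent.H48Sid

open Finset

/-- infinitely many `m` have no representation within `(m log m)^(3/4) / 1000` -/
theorem not_rep (S : Set ℕ) (hS : SidonSet S) (M : ℕ) :
    ∃ m : ℕ, M ≤ m ∧ ¬ Rep S m (((m : ℝ) * Real.log m) ^ (3 / 4 : ℝ) / 1000) := by
  by_contra hcon
  push Not at hcon
  have h1 : ∀ᶠ x : ℝ in Filter.atTop, 8 ≤ Real.log x :=
    Real.tendsto_log_atTop.eventually_ge_atTop 8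
  have h2 : ∀ᶠ x : ℝ in Filter.atTop, 10 ^ 6 * (Real.log x) ^ 3 ≤ x := by
    have := (Real.isLittleO_pow_log_id_atTop (n := 3)).bound (show (0 : ℝ) < 1 / 10 ^ 6 by norm_num)
    filter_upwards [this, Filter.eventually_ge_atTop (1 : ℝ)] with x hx hx1
    have hl : 0 ≤ Real.log x := Real.log_nonneg hx1
    rw [Real.norm_of_nonneg (by positivity)] at hx
    simp only [id] at hx
    rw [Real.norm_of_nonneg (by linarith)] at hx
    linarith
  have h3 : ∀ᶠ x : ℝ in Filter.atTop, ((max 3 M : ℕ) : ℝ) ≤ x := Filter.eventually_ge_atTop _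
  obtain ⟨n, hn1, hn2, hn3⟩ :=
    (tendsto_natCast_atTop_atTop.eventually (h1.and (h2.and h3))).exists
  have hn : max 3 M ≤ n := by exact_mod_cast hn3
  refine scale_contradiction S hS n (le_trans (le_max_left _ _) hn) hn1 hn2 ?_
  intro m hm
  exact hcon m (le_trans (le_trans (le_max_right _ _) hn) hm)

/-- eventually `C m^θ ≤ (m log m)^(3/4)/1000` if `θ ≤ 3/4` -/
lemma window_small (θ C : ℝ) (hθ : θ ≤ 3 / 4) (hC : 0 < C) :
    ∃ M : ℕ, ∀ m : ℕ, M ≤ m →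
      C * (m : ℝ) ^ θ ≤ ((m : ℝ) * Real.log m) ^ (3 / 4 : ℝ) / 1000 := by
  have h1 : ∀ᶠ x : ℝ in Filter.atTop, (1000 * C + 1) ^ (4 / 3 : ℝ) ≤ Real.log x :=
    Real.tendsto_log_atTop.eventually_ge_atTop _
  have h2 : ∀ᶠ x : ℝ in Filter.atTop, (1 : ℝ) ≤ x := Filter.eventually_ge_atTop _
  have h3 := tendsto_natCast_atTop_atTop.eventually (h1.and h2)
  rw [Filter.eventually_atTop] at h3
  obtain ⟨M, hM⟩ := h3
  refine ⟨M, fun m hm => ?_⟩
  obtain ⟨hl, hm1⟩ := hM m hm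
  have hm0 : (0 : ℝ) < m := by linarith
  have hl0 : 0 ≤ Real.log m := Real.log_nonneg hm1
  rw [Real.mul_rpow hm0.le hl0]
  have h4 : (m : ℝ) ^ θ ≤ (m : ℝ) ^ (3 / 4 : ℝ) := Real.rpow_le_rpow_of_exponent_le hm1 hθ
  have h5 : 1000 * C + 1 ≤ (Real.log m) ^ (3 / 4 : ℝ) := by
    have h6 : ((1000 * C + 1) ^ (4 / 3 : ℝ)) ^ (3 / 4 : ℝ) ≤ (Real.log m) ^ (3 / 4 : ℝ) :=
      Real.rpow_le_rpow (by positivity) hl (by norm_num)
    rw [← Real.rpow_mul (by positivity)] at h6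
    norm_num at h6
    exact h6
  have h7 : (0 : ℝ) < (m : ℝ) ^ (3 / 4 : ℝ) := by positivity
  have h8 : C * (m : ℝ) ^ θ ≤ C * (m : ℝ) ^ (3 / 4 : ℝ) := mul_le_mul_of_nonneg_left h4 hC.le
  have h9 : (m : ℝ) ^ (3 / 4 : ℝ) * (1000 * C + 1) ≤
      (m : ℝ) ^ (3 / 4 : ℝ) * (Real.log m) ^ (3 / 4 : ℝ) := mul_le_mul_of_nonneg_left h5 h7.le
  nlinarith

lemma Rep.mono {S : Set ℕ} {m : ℕ} {L L' : ℝ} (h : Rep S m L) (hL : L ≤ L') : Rep S m L' := by
  obtain ⟨s₁, h1, s₂, h2, s₃, h3, hs, b1, b2, b3⟩ := h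
  exact ⟨s₁, h1, s₂, h2, s₃, h3, hs, le_trans b1 hL, le_trans b2 hL, le_trans b3 hL⟩

/-- every admissible exponent is larger than `3/4` -/
theorem three_quarters_lt (θ : ℝ) (h : Admissible θ) : 3 / 4 < θ := by
  by_contra hθ
  push Not at hθ
  obtain ⟨h0, h1, S, hinf, hpos, hS, C, hC, N, hrep⟩ := h
  obtain ⟨M, hM⟩ := window_small θ C hθ hC
  obtain ⟨m, hm, hno⟩ := not_rep S hS (max N M)
  apply hno
  exact (hrep m (le_trans (le_max_left _ _) hm)).mono (hM m (le_trans (le_max_right _ _) hm))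

end Pool.Agent.H48Sid
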