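import Pool.Agent.H48Sid.Basic

set_option autoImplicit false

namespace Pool.Agent.H48Sid

open Finset

/-- one block: if all `m` in range have triples within `(δ u)^3`, the block has many elements -/
lemma block_lower (S : Set ℕ) (N j : ℕ) (v : ℝ) (hv : 1 ≤ v) (hN : 24 * v ^ 3 ≤ N)
    (h : ∀ m : ℕ, 3 * (j * N) ≤ m → m < 3 * ((j + 1) * N) →
      ∃ s₁ ∈ S, ∃ s₂ ∈ S, ∃ s₃ ∈ S, s₁ + s₂ + s₃ = m ∧
        |(s₁ : ℝ) - (m : ℝ) / 3| ≤ v ^ 3 ∧ |(s₂ : ℝ) - (m : ℝ) / 3| ≤ v ^ 3 ∧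
        |(s₃ : ℝ) - (m : ℝ) / 3| ≤ v ^ 3) :
    (N : ℝ) ≤ 8 * v ^ 2 * (cnt S (j * N) ((j + 1) * N) : ℝ) := by
  have hv0 : 0 < v := by linarith
  have hv3 : 1 ≤ v ^ 3 := one_le_pow₀ hv
  set ℓ : ℕ := ⌈v ^ 3⌉₊ with hℓ
  have hℓ1 : v ^ 3 ≤ (ℓ : ℝ) := Nat.le_ceil _
  have hℓ2 : (ℓ : ℝ) < v ^ 3 + 1 := Nat.ceil_lt_add_one (by positivity)
  have hℓ3 : (ℓ : ℝ) ≤ 2 * v ^ 3 := by linarith
  have hℓpos : 0 < ℓ := by
    have : (0 : ℝ) < ℓ := by linarith
    exact_mod_cast this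
  have hℓr : (0 : ℝ) < ℓ := by exact_mod_cast hℓpos
  have hNℓ : 12 * (ℓ : ℝ) ≤ N := by linarith
  set K : ℕ := N / (3 * ℓ) with hK
  have hKN : K * (3 * ℓ) ≤ N := Nat.div_mul_le_self N (3 * ℓ)
  have hK2 : (N : ℝ) ≤ 4 * ℓ * K := by
    have h1 : N < (K + 1) * (3 * ℓ) := by
      have := Nat.lt_div_mul_add (a := N) (b := 3 * ℓ) (by omega)
      rw [← hK] at this
      have e : (K + 1) * (3 * ℓ) = K * (3 * ℓ) + 3 * ℓ := by ring
      omega
    have h2 : (N : ℝ) < ((K : ℝ) + 1) * (3 * ℓ) := by exact_mod_cast h1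
    nlinarith
  -- lower bound for each window
  obtain ⟨k, hk⟩ : ∃ k : ℕ, k = ⌈v⌉₊ := ⟨_, rfl⟩
  have hkv : v ≤ (k : ℝ) := by rw [hk]; exact Nat.le_ceil _
  have hwin : ∀ i < K, k ≤ cnt S (j * N + i * (3 * ℓ)) (j * N + i * (3 * ℓ) + 3 * ℓ) := by
    intro i hi
    have hi2 : i * (3 * ℓ) + 3 * ℓ ≤ N := by
      have : (i + 1) * (3 * ℓ) ≤ K * (3 * ℓ) := Nat.mul_le_mul_right _ (by omega)
      have e : (i + 1) * (3 * ℓ) = i * (3 * ℓ) + 3 * ℓ := by ring
      omega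
    have hw := window_count S (j * N + i * (3 * ℓ)) ℓ (v ^ 3) hℓ1 (by
      intro m hm1 hm2
      apply h m
      · refine le_trans ?_ hm1
        apply Nat.mul_le_mul_left
        omega
      · refine lt_of_lt_of_le hm2 ?_
        apply Nat.mul_le_mul_left
        have e : (j + 1) * N = j * N + N := by ring
        rw [e]
        omega)
    have h3 : v ^ 3 ≤ ((cnt S (j * N + i * (3 * ℓ)) (j * N + i * (3 * ℓ) + 3 * ℓ) : ℕ) : ℝ) ^ 3 := by
      have : ((3 * ℓ : ℕ) : ℝ) ≤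
          ((cnt S (j * N + i * (3 * ℓ)) (j * N + i * (3 * ℓ) + 3 * ℓ) : ℕ) : ℝ) ^ 3 := by
        exact_mod_cast hw
      push_cast at this
      linarith
    have h4 : v ≤ ((cnt S (j * N + i * (3 * ℓ)) (j * N + i * (3 * ℓ) + 3 * ℓ) : ℕ) : ℝ) :=
      le_of_pow_le_pow_left₀ (by norm_num) (by positivity) h3
    rw [hk]
    exact Nat.ceil_le.mpr h4
  have hmany := many_windows S (j * N) (3 * ℓ) k K hwin
  have hmono : cnt S (j * N) (j * N + K * (3 * ℓ)) ≤ cnt S (j * N) ((j + 1) * N) := by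
    apply cnt_mono
    have e : (j + 1) * N = j * N + N := by ring
    rw [e]
    omega
  have hD : (K : ℝ) * k ≤ (cnt S (j * N) ((j + 1) * N) : ℝ) := by exact_mod_cast le_trans hmany hmono
  have hKk : (K : ℝ) * v ≤ (cnt S (j * N) ((j + 1) * N) : ℝ) := by
    refine le_trans ?_ hD
    exact mul_le_mul_of_nonneg_left hkv (by positivity)
  calc (N : ℝ) ≤ 4 * ℓ * K := hK2
    _ ≤ 4 * (2 * v ^ 3) * K := by
        apply mul_le_mul_of_nonneg_right _ (by positivity)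
        linarith
    _ = 8 * v ^ 2 * (K * v) := by ring
    _ ≤ 8 * v ^ 2 * (cnt S (j * N) ((j + 1) * N) : ℝ) := by
        apply mul_le_mul_of_nonneg_left hKk (by positivity)

/-- The main numerical contradiction for one large `n`. -/
lemma scale_contradiction (S : Set ℕ) (hS : SidonSet S) (n : ℕ) (hn : 3 ≤ n)
    (hlog1 : 8 ≤ Real.log n) (hlog3 : 10 ^ 6 * (Real.log n) ^ 3 ≤ n)
    (h : ∀ m : ℕ, n ≤ m →
      ∃ s₁ ∈ S, ∃ s₂ ∈ S, ∃ s₃ ∈ S, s₁ + s₂ + s₃ = m ∧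
        |(s₁ : ℝ) - (m : ℝ) / 3| ≤ ((m : ℝ) * Real.log m) ^ (3 / 4 : ℝ) / 1000 ∧
        |(s₂ : ℝ) - (m : ℝ) / 3| ≤ ((m : ℝ) * Real.log m) ^ (3 / 4 : ℝ) / 1000 ∧
        |(s₃ : ℝ) - (m : ℝ) / 3| ≤ ((m : ℝ) * Real.log m) ^ (3 / 4 : ℝ) / 1000) : False := by
  set N : ℕ := n ^ 4 with hN
  have hnr : (3 : ℝ) ≤ n := by exact_mod_cast hn
  have hn0 : (0 : ℝ) < n := by linarith
  have hNr : (N : ℝ) = (n : ℝ) ^ 4 := by rw [hN]; push_cast; ring
  have hNpos : (0 : ℝ) < N := by rw [hNr]; positivity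
  have hlogpos : 0 < Real.log n := by linarith
  -- each block
  have hblock : ∀ j : ℕ, 1 ≤ j → j < n →
      8 * (N : ℝ) / (((j : ℝ) + 1) * Real.log n) ≤
        (cnt S (j * N) ((j + 1) * N) : ℝ) ^ 2 ∧ 32 ≤ (cnt S (j * N) ((j + 1) * N) : ℝ) := by
    intro j hj1 hj2
    have hjr : (1 : ℝ) ≤ j := by exact_mod_cast hj1
    have hjn : (j : ℝ) + 1 ≤ n := by exact_mod_cast hj2
    obtain ⟨y, hy⟩ : ∃ y : ℝ, y = 3 * ((j : ℝ) + 1) * N := ⟨_, rfl⟩
    have hy1 : (n : ℝ) ≤ y := by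
      rw [hy, hNr]
      have : (1 : ℝ) ≤ (n : ℝ) ^ 3 := one_le_pow₀ (by linarith)
      nlinarith [mul_pos hn0 hn0, pow_pos hn0 4, pow_pos hn0 3]
    have hypos : 0 < y := by linarith
    have hyle : y ≤ (n : ℝ) ^ 6 := by
      rw [hy, hNr]
      have h1 : 3 * ((j : ℝ) + 1) ≤ n * n := by nlinarith
      have h2 : (0 : ℝ) ≤ (n : ℝ) ^ 4 := by positivity
      nlinarith
    have hyle3 : y ≤ 3 * (n : ℝ) ^ 5 := by
      rw [hy, hNr]
      have h2 : (0 : ℝ) ≤ (n : ℝ) ^ 4 := by positivity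
      nlinarith
    have hlogy : Real.log y ≤ 6 * Real.log n := by
      have := Real.log_le_log hypos hyle
      rw [Real.log_pow] at this
      exact_mod_cast this
    have hlogy0 : Real.log n ≤ Real.log y := Real.log_le_log hn0 hy1
    have hlogy1 : 8 ≤ Real.log y := by linarith
    obtain ⟨z, hz⟩ : ∃ z : ℝ, z = y * Real.log y := ⟨_, rfl⟩
    have hzpos : 0 < z := by rw [hz]; positivity
    obtain ⟨v, hv⟩ : ∃ v : ℝ, v = z ^ (1 / 4 : ℝ) / 10 := ⟨_, rfl⟩
    have hv0 : 0 < v := by rw [hv]; positivity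
    have hv4 : 10 ^ 4 * v ^ 4 = z := by
      rw [hv, div_pow, ← Real.rpow_natCast (z ^ (1 / 4 : ℝ)) 4, ← Real.rpow_mul hzpos.le]
      norm_num
      ring
    have hv3 : v ^ 3 = z ^ (3 / 4 : ℝ) / 1000 := by
      rw [hv, div_pow, ← Real.rpow_natCast (z ^ (1 / 4 : ℝ)) 3, ← Real.rpow_mul hzpos.le]
      norm_num
    -- v ≥ 1
    have hz1 : 10 ^ 4 ≤ z := by
      rw [hz]
      have h1 : (10 : ℝ) ^ 6 ≤ n := by
        have : (1 : ℝ) ≤ (Real.log n) ^ 3 := one_le_pow₀ (by linarith)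
        nlinarith
      nlinarith
    have hv1 : 1 ≤ v := by
      have h1 : (1 : ℝ) ^ 4 ≤ v ^ 4 := by linarith
      exact le_of_pow_le_pow_left₀ (by norm_num) hv0.le h1
    -- 24 v^3 ≤ N
    have hvN : 24 * v ^ 3 ≤ N := by
      have hz2 : z ≤ 18 * (n : ℝ) ^ 5 * Real.log n := by
        rw [hz]
        calc y * Real.log y ≤ 3 * (n : ℝ) ^ 5 * (6 * Real.log n) := by
              apply mul_le_mul hyle3 hlogy (by linarith) (by positivity)
          _ = 18 * (n : ℝ) ^ 5 * Real.log n := by ring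
      -- (v^3)^4 = (v^4)^3
      have h1 : (24 * v ^ 3) ^ 4 ≤ (N : ℝ) ^ 4 := by
        have e1 : (24 * v ^ 3) ^ 4 = 24 ^ 4 / 10 ^ 12 * z ^ 3 := by
          rw [← hv4]; ring
        rw [e1, hNr]
        have h2 : z ^ 3 ≤ (18 * (n : ℝ) ^ 5 * Real.log n) ^ 3 := by
          apply pow_le_pow_left₀ hzpos.le hz2
        have h3 : (18 * (n : ℝ) ^ 5 * Real.log n) ^ 3 = 5832 * (n : ℝ) ^ 15 * (Real.log n) ^ 3 := by
          ring
        have h4 : 5832 * (n : ℝ) ^ 15 * (Real.log n) ^ 3 ≤ (n : ℝ) ^ 16 := by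
          have h5 : 5832 * (Real.log n) ^ 3 ≤ n := by
            have : (0 : ℝ) ≤ (Real.log n) ^ 3 := by positivity
            nlinarith
          have h6 : (0 : ℝ) ≤ (n : ℝ) ^ 15 := by positivity
          calc 5832 * (n : ℝ) ^ 15 * (Real.log n) ^ 3
              = (n : ℝ) ^ 15 * (5832 * (Real.log n) ^ 3) := by ring
            _ ≤ (n : ℝ) ^ 15 * n := mul_le_mul_of_nonneg_left h5 h6
            _ = (n : ℝ) ^ 16 := by ring
        have h7 : ((n : ℝ) ^ 4) ^ 4 = (n : ℝ) ^ 16 := by ring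
        rw [h7]
        have h8 : z ^ 3 ≤ (n : ℝ) ^ 16 := by linarith
        have h9 : (24 : ℝ) ^ 4 / 10 ^ 12 * z ^ 3 ≤ 1 * z ^ 3 := by
          apply mul_le_mul_of_nonneg_right _ (by positivity)
          norm_num
        linarith
      exact le_of_pow_le_pow_left₀ (by norm_num) hNpos.le h1
    have hbl := block_lower S N j v hv1 hvN (by
      intro m hm1 hm2
      have hnm : n ≤ m := by
        refine le_trans ?_ hm1
        have h1 : n ≤ n ^ 4 := Nat.le_self_pow (by norm_num) n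
        have h2 : n ^ 4 ≤ j * n ^ 4 := Nat.le_mul_of_pos_left _ (by omega)
        have : n ≤ j * N := le_trans h1 h2
        omega
      obtain ⟨s₁, h1, s₂, h2, s₃, h3, hs, b1, b2, b3⟩ := h m hnm
      have hmr : (n : ℝ) ≤ m := by exact_mod_cast hnm
      have hm0 : (0 : ℝ) < m := by linarith
      have hmy : (m : ℝ) ≤ y := by
        rw [hy]
        have : (m : ℝ) < 3 * (((j : ℝ) + 1) * N) := by exact_mod_cast hm2
        linarith
      have hlogm : 0 ≤ Real.log m := Real.log_nonneg (by linarith)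
      have hle : ((m : ℝ) * Real.log m) ^ (3 / 4 : ℝ) / 1000 ≤ v ^ 3 := by
        rw [hv3, hz]
        apply div_le_div_of_nonneg_right _ (by norm_num)
        apply Real.rpow_le_rpow (by positivity) _ (by norm_num)
        apply mul_le_mul hmy (Real.log_le_log hm0 hmy) hlogm hypos.le
      exact ⟨s₁, h1, s₂, h2, s₃, h3, hs, le_trans b1 hle, le_trans b2 hle, le_trans b3 hle⟩)
    set D : ℝ := (cnt S (j * N) ((j + 1) * N) : ℝ) with hDdef
    have hD0 : 0 ≤ D := by rw [hDdef]; positivity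
    constructor
    · -- N^2 ≤ 64 v^4 D^2 = 64/10^4 z D^2
      have h1 : (N : ℝ) ^ 2 ≤ (8 * v ^ 2 * D) ^ 2 := pow_le_pow_left₀ hNpos.le hbl 2
      have h2 : (8 * v ^ 2 * D) ^ 2 = 64 / 10 ^ 4 * z * D ^ 2 := by rw [← hv4]; ring
      rw [h2] at h1
      have h3 : z ≤ 18 * ((j : ℝ) + 1) * N * Real.log n := by
        rw [hz, hy]
        rw [hy] at hlogy
        have h4 : 3 * ((j : ℝ) + 1) * N * Real.log (3 * ((j : ℝ) + 1) * N) ≤
            3 * ((j : ℝ) + 1) * N * (6 * Real.log n) :=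
          mul_le_mul_of_nonneg_left hlogy (by positivity)
        linarith
      have h5 : (N : ℝ) ^ 2 ≤ 64 / 10 ^ 4 * (18 * ((j : ℝ) + 1) * N * Real.log n) * D ^ 2 := by
        refine le_trans h1 ?_
        apply mul_le_mul_of_nonneg_right _ (by positivity)
        apply mul_le_mul_of_nonneg_left h3 (by norm_num)
      have h6 : (N : ℝ) ≤ 64 / 10 ^ 4 * 18 * (((j : ℝ) + 1) * Real.log n) * D ^ 2 := by
        have h7 : (N : ℝ) * N ≤ N * (64 / 10 ^ 4 * 18 * (((j : ℝ) + 1) * Real.log n) * D ^ 2) := by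
          nlinarith
        exact le_of_mul_le_mul_left h7 hNpos
      rw [div_le_iff₀ (by positivity)]
      have h8 : 0 ≤ ((j : ℝ) + 1) * Real.log n * D ^ 2 := by positivity
      nlinarith
    · -- D ≥ N / (8 v^2) ≥ 32 : since v ≤ v^3, 24 v^3 ≤ N only gives 3 v; use v large
      have hv10 : 11 ≤ v := by
        have hzbig : 10 ^ 4 * 11 ^ 4 ≤ z := by
          rw [hz]
          have h1 : (10 : ℝ) ^ 6 * 512 ≤ n := by
            have : (8 : ℝ) ^ 3 ≤ (Real.log n) ^ 3 := pow_le_pow_left₀ (by norm_num) hlog1 3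
            nlinarith
          nlinarith
        have h1 : (11 : ℝ) ^ 4 ≤ v ^ 4 := by linarith
        exact le_of_pow_le_pow_left₀ (by norm_num) hv0.le h1
      have h1 : 24 * v ^ 3 ≤ 8 * v ^ 2 * D := le_trans hvN hbl
      have h2 : 8 * v ^ 2 * (3 * v) ≤ 8 * v ^ 2 * D := by linarith
      have h3 : 3 * v ≤ D := le_of_mul_le_mul_left h2 (by positivity)
      linarith
  -- sum over blocks
  have hpairs := block_pairs S hS N n
  have hpr : ∑ j ∈ Finset.range n,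
      (((cnt S (j * N) ((j + 1) * N)) * (cnt S (j * N) ((j + 1) * N)) -
        cnt S (j * N) ((j + 1) * N) : ℕ) : ℝ) ≤ 2 * N := by
    rw [← Nat.cast_sum]
    exact_mod_cast hpairs
  have hterm : ∀ j ∈ Finset.range n, (if j = 0 then (0 : ℝ) else
      7 * (N : ℝ) / (((j : ℝ) + 1) * Real.log n)) ≤
      (((cnt S (j * N) ((j + 1) * N)) * (cnt S (j * N) ((j + 1) * N)) -
        cnt S (j * N) ((j + 1) * N) : ℕ) : ℝ) := by
    intro j hj
    rw [Finset.mem_range] at hj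
    by_cases h0 : j = 0
    · rw [if_pos h0]; positivity
    · rw [if_neg h0]
      obtain ⟨h1, h2⟩ := hblock j (by omega) hj
      have h3 : cnt S (j * N) ((j + 1) * N) ≤
          (cnt S (j * N) ((j + 1) * N)) * (cnt S (j * N) ((j + 1) * N)) := Nat.le_mul_self _
      rw [Nat.cast_sub h3, Nat.cast_mul]
      set D : ℝ := (cnt S (j * N) ((j + 1) * N) : ℝ) with hDdef
      have h4 : 8 * (N : ℝ) / (((j : ℝ) + 1) * Real.log n) =
          8 * ((N : ℝ) / (((j : ℝ) + 1) * Real.log n)) := by ring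
      have h5 : 7 * (N : ℝ) / (((j : ℝ) + 1) * Real.log n) =
          7 * ((N : ℝ) / (((j : ℝ) + 1) * Real.log n)) := by ring
      rw [h4] at h1
      rw [h5]
      nlinarith
  have hsum := Finset.sum_le_sum hterm
  have hsum2 := le_trans hsum hpr
  -- evaluate the left side
  have hL : ∑ j ∈ Finset.range n, (if j = 0 then (0 : ℝ) else
      7 * (N : ℝ) / (((j : ℝ) + 1) * Real.log n)) =
      7 * (N : ℝ) / Real.log n * ((harmonic n : ℚ) - 1 : ℝ) := by
    have e1 : ((harmonic n : ℚ) : ℝ) = ∑ j ∈ Finset.range n, ((j : ℝ) + 1)⁻¹ := by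
      unfold harmonic
      push_cast
      rfl
    rw [e1, mul_sub, Finset.mul_sum]
    obtain ⟨q, rfl⟩ : ∃ q, n = q + 1 := ⟨n - 1, by omega⟩
    rw [Finset.sum_range_succ', Finset.sum_range_succ']
    simp only [Nat.cast_zero, zero_add, inv_one, mul_one, if_true, add_zero, add_sub_cancel_right]
    apply Finset.sum_congr rfl
    intro j _
    rw [if_neg (by omega)]
    push_cast
    field_simp
  rw [hL] at hsum2
  have hharm : Real.log ((n : ℝ) + 1) ≤ ((harmonic n : ℚ) : ℝ) := by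
    have := log_add_one_le_harmonic n
    exact_mod_cast this
  have hharm2 : Real.log n ≤ ((harmonic n : ℚ) : ℝ) :=
    le_trans (Real.log_le_log hn0 (by linarith)) hharm
  have h1 : 7 * (N : ℝ) / Real.log n * (7 / 8 * Real.log n) ≤
      7 * (N : ℝ) / Real.log n * ((harmonic n : ℚ) - 1 : ℝ) := by
    apply mul_le_mul_of_nonneg_left _ (by positivity)
    linarith
  have h2 : 7 * (N : ℝ) / Real.log n * (7 / 8 * Real.log n) = 49 / 8 * N := by
    field_simp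
    ring
  rw [h2] at h1
  linarith

end Pool.Agent.H48Sid
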