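import Pool.Agent.H48Sid.Upper
import Pool.Agent.H48Sid.Final

set_option autoImplicit false

namespace Pool.Agent.H48Sid

open Finset

open Classical in
/-- windows `C m^θ`: at most `50 C^(2/3) X^(1/2+2θ/3)` integers up to `X` are represented -/
theorem count_power (S : Set ℕ) (hS : SidonSet S) (θ C : ℝ) (h0 : 0 < θ) (h1 : θ < 1)
    (hC : 0 < C) : ∃ X₀ : ℕ, ∀ X : ℕ, X₀ ≤ X →
      (((Finset.range (X + 1)).filter (fun m : ℕ => Rep S m (C * (m : ℝ) ^ θ))).card : ℝ) ≤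
        50 * C ^ (2 / 3 : ℝ) * (X : ℝ) ^ (1 / 2 + 2 * θ / 3) := by
  have e1 : ∀ᶠ x : ℝ in Filter.atTop, 1 / C ≤ x ^ θ :=
    (tendsto_rpow_atTop h0).eventually_ge_atTop _
  have e2 : ∀ᶠ x : ℝ in Filter.atTop, C ≤ x ^ (1 - θ) :=
    (tendsto_rpow_atTop (by linarith)).eventually_ge_atTop _
  have h3 := tendsto_natCast_atTop_atTop.eventually
    (e1.and (e2.and (Filter.eventually_ge_atTop (1 : ℝ))))
  rw [Filter.eventually_atTop] at h3
  obtain ⟨X₀, hX₀⟩ := h3
  refine ⟨X₀, fun X hX => ?_⟩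
  obtain ⟨f1, f2, f3⟩ := hX₀ X hX
  have hX0 : (0 : ℝ) < X := by linarith
  have hL1 : 1 ≤ C * (X : ℝ) ^ θ := by
    rw [div_le_iff₀ hC] at f1
    linarith
  have hL2 : C * (X : ℝ) ^ θ ≤ X := by
    have e : (X : ℝ) ^ (1 - θ) * (X : ℝ) ^ θ = X := by
      rw [← Real.rpow_add hX0]
      simp
    calc C * (X : ℝ) ^ θ ≤ (X : ℝ) ^ (1 - θ) * (X : ℝ) ^ θ :=
          mul_le_mul_of_nonneg_right f2 (by positivity)
      _ = X := e
  have hcu := count_upper S hS X (C * (X : ℝ) ^ θ) hL1 hL2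
  have hsub : (((Finset.range (X + 1)).filter (fun m : ℕ => Rep S m (C * (m : ℝ) ^ θ))).card : ℝ) ≤
      (((Finset.range (X + 1)).filter (fun m : ℕ => Rep S m (C * (X : ℝ) ^ θ))).card : ℝ) := by
    have : ((Finset.range (X + 1)).filter (fun m : ℕ => Rep S m (C * (m : ℝ) ^ θ))) ⊆
        ((Finset.range (X + 1)).filter (fun m : ℕ => Rep S m (C * (X : ℝ) ^ θ))) := by
      intro m hm
      rw [Finset.mem_filter, Finset.mem_range] at hm ⊢
      refine ⟨hm.1, hm.2.mono ?_⟩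
      apply mul_le_mul_of_nonneg_left _ hC.le
      apply Real.rpow_le_rpow (by positivity) _ h0.le
      have : m ≤ X := by omega
      exact_mod_cast this
    exact_mod_cast Finset.card_le_card this
  refine le_trans hsub (le_trans hcu (le_of_eq ?_))
  rw [Real.mul_rpow hC.le (by positivity), ← Real.rpow_mul hX0.le, Real.sqrt_eq_rpow,
    mul_assoc, mul_assoc, mul_assoc, ← Real.rpow_add hX0]
  congr 3
  ring

end Pool.Agent.H48Sid
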