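import Pool.Agent.H48Sid.Basic

set_option autoImplicit false

namespace Pool.Agent.H48Sid

open Finset

/-- a Sidon set has at most `1 + sqrt (2 Y)` elements below `Y` -/
lemma sidon_sqrt (S : Set ℕ) (hS : SidonSet S) (Y : ℕ) :
    (cnt S 0 Y : ℝ) ≤ 1 + Real.sqrt (2 * Y) := by
  have h := block_pairs S hS Y 1
  rw [Finset.sum_range_one] at h
  simp only [zero_mul, zero_add, one_mul] at h
  set D := cnt S 0 Y with hD
  rcases Nat.eq_zero_or_pos D with h0 | h0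
  · rw [h0]
    have := Real.sqrt_nonneg (2 * (Y : ℝ))
    push_cast
    linarith
  · have h3 : D ≤ D * D := Nat.le_mul_self _
    have h4 : ((D * D - D : ℕ) : ℝ) ≤ 2 * Y := by exact_mod_cast h
    rw [Nat.cast_sub h3, Nat.cast_mul] at h4
    have h5 : (1 : ℝ) ≤ D := by exact_mod_cast h0
    have h6 : ((D : ℝ) - 1) ^ 2 ≤ 2 * Y := by nlinarith
    have h7 : (D : ℝ) - 1 ≤ Real.sqrt (2 * Y) := Real.le_sqrt_of_sq_le h6
    linarith

lemma block_upper (S : Set ℕ) (i ℓ : ℕ) (L : ℝ) (hL : L ≤ ℓ) (R : Finset ℕ)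
    (hR : ∀ m ∈ R, (3 * (i * ℓ) ≤ m ∧ m < 3 * ((i + 1) * ℓ)) ∧ Rep S m L) :
    (R.card : ℝ) ^ 3 ≤ (cnt S ((i - 1) * ℓ) ((i + 2) * ℓ) : ℝ) ^ 3 * (3 * ℓ) ^ 2 := by
  classical
  set A : Finset ℕ := (Finset.Ico ((i - 1) * ℓ) ((i + 2) * ℓ)).filter (· ∈ S) with hA
  have hsub : R ⊆ (A ×ˢ A ×ˢ A).image (fun p => p.1 + p.2.1 + p.2.2) := by
    intro m hm
    obtain ⟨⟨hm1, hm2⟩, s₁, h1, s₂, h2, s₃, h3, hs, b1, b2, b3⟩ := hR m hm
    have hm1' : (3 : ℝ) * (i * ℓ) ≤ m := by exact_mod_cast hm1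
    have hm2' : (m : ℝ) < 3 * ((i + 1) * ℓ) := by exact_mod_cast hm2
    have key : ∀ s : ℕ, s ∈ S → |(s : ℝ) - (m : ℝ) / 3| ≤ L → s ∈ A := by
      intro s hs hb
      rw [abs_le] at hb
      rw [hA, Finset.mem_filter, Finset.mem_Ico]
      refine ⟨⟨?_, ?_⟩, hs⟩
      · rcases Nat.eq_zero_or_pos i with h0 | h0
        · subst h0; simp
        · have : (((i - 1 : ℕ) : ℝ)) * ℓ ≤ s := by
            rw [Nat.cast_sub h0]
            push_cast
            have e : ((i : ℝ) - 1) * ℓ = i * ℓ - ℓ := by ring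
            rw [e]
            linarith
          exact_mod_cast this
      · have : (s : ℝ) < ((i : ℝ) + 2) * ℓ := by
          have e : ((i : ℝ) + 2) * ℓ = (i + 1) * ℓ + ℓ := by ring
          rw [e]
          linarith
        exact_mod_cast this
    rw [Finset.mem_image]
    refine ⟨(s₁, s₂, s₃), ?_, hs⟩
    simp only [Finset.mem_product]
    exact ⟨key s₁ h1 b1, key s₂ h2 b2, key s₃ h3 b3⟩
  have hc := Finset.card_le_card hsub
  have hc2 : ((A ×ˢ A ×ˢ A).image (fun p => p.1 + p.2.1 + p.2.2)).card ≤ (A ×ˢ A ×ˢ A).card :=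
    Finset.card_image_le
  rw [Finset.card_product, Finset.card_product] at hc2
  have e : cnt S ((i - 1) * ℓ) ((i + 2) * ℓ) = A.card := rfl
  rw [e]
  have h1 : (R.card : ℝ) ≤ (A.card : ℝ) ^ 3 := by
    have : R.card ≤ A.card ^ 3 := by
      have e2 : A.card ^ 3 = A.card * (A.card * A.card) := by ring
      rw [e2]; omega
    exact_mod_cast this
  have h2 : (R.card : ℝ) ≤ 3 * ℓ := by
    have hs2 : R ⊆ Finset.Ico (3 * (i * ℓ)) (3 * ((i + 1) * ℓ)) := by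
      intro m hm
      rw [Finset.mem_Ico]
      exact (hR m hm).1
    have := Finset.card_le_card hs2
    rw [Nat.card_Ico] at this
    have e3 : 3 * ((i + 1) * ℓ) - 3 * (i * ℓ) = 3 * ℓ := by
      have : (i + 1) * ℓ = i * ℓ + ℓ := by ring
      omega
    rw [e3] at this
    exact_mod_cast this
  have h0 : (0 : ℝ) ≤ R.card := by positivity
  calc (R.card : ℝ) ^ 3 = R.card * (R.card : ℝ) ^ 2 := by ring
    _ ≤ (A.card : ℝ) ^ 3 * (3 * ℓ) ^ 2 := by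
        apply mul_le_mul h1 (pow_le_pow_left₀ h0 h2 2) (by positivity) (by positivity)

lemma sum_windows (S : Set ℕ) (ℓ J : ℕ) :
    ∑ i ∈ Finset.range J, cnt S ((i - 1) * ℓ) ((i + 2) * ℓ) ≤
      cnt S 0 ((J + 1) * ℓ) + cnt S 0 (J * ℓ) + cnt S 0 ((J - 1) * ℓ) := by
  induction J with
  | zero => simp
  | succ J ih =>
    rw [Finset.sum_range_succ]
    have h1 : cnt S 0 ((J + 2) * ℓ) = cnt S 0 ((J - 1) * ℓ) + cnt S ((J - 1) * ℓ) ((J + 2) * ℓ) :=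
      cnt_add S 0 _ _ (Nat.zero_le _) (Nat.mul_le_mul_right _ (by omega))
    have e1 : J + 1 + 1 = J + 2 := by ring
    have e2 : J + 1 - 1 = J := by omega
    rw [e1, e2]
    omega

open Classical in
/-- Few integers are sums of three nearly equal elements of a Sidon set. -/
theorem count_upper (S : Set ℕ) (hS : SidonSet S) (X : ℕ) (L : ℝ) (hL1 : 1 ≤ L) (hLX : L ≤ X) :
    (((Finset.range (X + 1)).filter (fun m => Rep S m L)).card : ℝ) ≤
      50 * L ^ (2 / 3 : ℝ) * Real.sqrt X := by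
  have hL0 : 0 < L := by linarith
  have hX1 : (1 : ℝ) ≤ X := by linarith
  set ℓ : ℕ := ⌈L⌉₊ with hℓ
  have hℓ1 : L ≤ (ℓ : ℝ) := Nat.le_ceil _
  have hℓ2 : (ℓ : ℝ) < L + 1 := Nat.ceil_lt_add_one (by positivity)
  have hℓ3 : (ℓ : ℝ) ≤ 2 * L := by linarith
  have hℓr : (0 : ℝ) < ℓ := by linarith
  have hℓpos : 0 < ℓ := by exact_mod_cast hℓr
  set J : ℕ := X / (3 * ℓ) + 1 with hJ
  set R : Finset ℕ := (Finset.range (X + 1)).filter (fun m => Rep S m L) with hR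
  obtain ⟨T, hT⟩ : ∃ T : ℝ, T = (3 * (ℓ : ℝ)) ^ (2 / 3 : ℝ) := ⟨_, rfl⟩
  have hT0 : 0 ≤ T := by rw [hT]; positivity
  have hT3 : T ^ 3 = (3 * (ℓ : ℝ)) ^ 2 := by
    rw [hT, ← Real.rpow_natCast ((3 * (ℓ : ℝ)) ^ (2 / 3 : ℝ)) 3, ← Real.rpow_mul (by positivity)]
    norm_num
  have hmaps : ∀ m ∈ R, m / (3 * ℓ) ∈ Finset.range J := by
    intro m hm
    rw [hR, Finset.mem_filter, Finset.mem_range] at hm
    rw [Finset.mem_range, hJ]
    have : m / (3 * ℓ) ≤ X / (3 * ℓ) := Nat.div_le_div_right (by omega)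
    omega
  have hcard := Finset.card_eq_sum_card_fiberwise (f := fun m => m / (3 * ℓ)) hmaps
  have hblock : ∀ i ∈ Finset.range J, ((R.filter (fun m => m / (3 * ℓ) = i)).card : ℝ) ≤
      (cnt S ((i - 1) * ℓ) ((i + 2) * ℓ) : ℝ) * T := by
    intro i _
    have hb := block_upper S i ℓ L hℓ1 (R.filter (fun m => m / (3 * ℓ) = i)) (by
      intro m hm
      rw [Finset.mem_filter] at hm
      obtain ⟨hmR, hmi⟩ := hm
      rw [hR, Finset.mem_filter] at hmR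
      refine ⟨?_, hmR.2⟩
      have h1 := Nat.div_mul_le_self m (3 * ℓ)
      have h2 := Nat.lt_div_mul_add (a := m) (b := 3 * ℓ) (by omega)
      rw [hmi] at h1 h2
      have e1 : 3 * (i * ℓ) = i * (3 * ℓ) := by ring
      have e2 : 3 * ((i + 1) * ℓ) = i * (3 * ℓ) + 3 * ℓ := by ring
      rw [e1, e2]
      exact ⟨h1, h2⟩)
    rw [← hT3, ← mul_pow] at hb
    exact le_of_pow_le_pow_left₀ (by norm_num) (by positivity) hb
  have hsum : (R.card : ℝ) ≤ (∑ i ∈ Finset.range J, (cnt S ((i - 1) * ℓ) ((i + 2) * ℓ) : ℝ)) * T := by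
    rw [hcard, Finset.sum_mul]
    push_cast
    exact Finset.sum_le_sum hblock
  -- the sum of the counts
  have hJℓ : ((J + 1) * ℓ : ℕ) ≤ 5 * X := by
    have h1 : X / (3 * ℓ) * (3 * ℓ) ≤ X := Nat.div_mul_le_self X (3 * ℓ)
    have h2 : ((J + 1) * ℓ : ℕ) = X / (3 * ℓ) * ℓ + 2 * ℓ := by rw [hJ]; ring
    have h3 : 3 * (X / (3 * ℓ) * ℓ) = X / (3 * ℓ) * (3 * ℓ) := by ring
    have h4 : ℓ ≤ 2 * X := by
      have : (ℓ : ℝ) ≤ 2 * X := by linarith
      exact_mod_cast this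
    rw [h2]
    omega
  have hwin := sum_windows S ℓ J
  have m1 : cnt S 0 ((J + 1) * ℓ) ≤ cnt S 0 (5 * X) := cnt_mono S 0 _ _ hJℓ
  have m2 : cnt S 0 (J * ℓ) ≤ cnt S 0 (5 * X) := by
    apply cnt_mono
    refine le_trans (Nat.mul_le_mul_right ℓ (by omega)) hJℓ
  have m3 : cnt S 0 ((J - 1) * ℓ) ≤ cnt S 0 (5 * X) := by
    apply cnt_mono
    refine le_trans (Nat.mul_le_mul_right ℓ ((Nat.sub_le J 1).trans (Nat.le_succ J))) hJℓ
  have hwin2 : (∑ i ∈ Finset.range J, (cnt S ((i - 1) * ℓ) ((i + 2) * ℓ) : ℝ)) ≤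
      3 * (cnt S 0 (5 * X) : ℝ) := by
    have : ∑ i ∈ Finset.range J, cnt S ((i - 1) * ℓ) ((i + 2) * ℓ) ≤ 3 * cnt S 0 (5 * X) := by
      omega
    exact_mod_cast this
  have hsq := sidon_sqrt S hS (5 * X)
  have hsq2 : Real.sqrt (2 * ((5 * X : ℕ) : ℝ)) ≤ 33 / 10 * Real.sqrt X := by
    have e : Real.sqrt (2 * ((5 * X : ℕ) : ℝ)) = Real.sqrt 10 * Real.sqrt X := by
      rw [← Real.sqrt_mul (by norm_num)]
      congr 1
      push_cast
      ring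
    rw [e]
    apply mul_le_mul_of_nonneg_right _ (Real.sqrt_nonneg _)
    rw [show (33 / 10 : ℝ) = Real.sqrt ((33 / 10) ^ 2) by
      rw [Real.sqrt_sq (by norm_num)]]
    apply Real.sqrt_le_sqrt
    norm_num
  have hsX : 1 ≤ Real.sqrt X := by
    rw [show (1 : ℝ) = Real.sqrt 1 by simp]
    exact Real.sqrt_le_sqrt hX1
  have hcnt : (cnt S 0 (5 * X) : ℝ) ≤ 43 / 10 * Real.sqrt X := by linarith
  have hTL : T ≤ 10 / 3 * L ^ (2 / 3 : ℝ) := by
    have h1 : T ^ 3 ≤ (10 / 3 * L ^ (2 / 3 : ℝ)) ^ 3 := by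
      have h2 : (L ^ (2 / 3 : ℝ)) ^ 3 = L ^ 2 := by
        rw [← Real.rpow_natCast (L ^ (2 / 3 : ℝ)) 3, ← Real.rpow_mul hL0.le]
        norm_num
      have h3 : (10 / 3 * L ^ (2 / 3 : ℝ)) ^ 3 = 1000 / 27 * L ^ 2 := by
        rw [mul_pow, h2]
        norm_num
      rw [hT3, h3]
      nlinarith
    exact le_of_pow_le_pow_left₀ (by norm_num) (by positivity) h1
  calc (R.card : ℝ) ≤ (∑ i ∈ Finset.range J, (cnt S ((i - 1) * ℓ) ((i + 2) * ℓ) : ℝ)) * T := hsum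
    _ ≤ (3 * (cnt S 0 (5 * X) : ℝ)) * T := mul_le_mul_of_nonneg_right hwin2 hT0
    _ ≤ (3 * (43 / 10 * Real.sqrt X)) * (10 / 3 * L ^ (2 / 3 : ℝ)) := by
        apply mul_le_mul _ hTL hT0 (by positivity)
        linarith
    _ = 43 * L ^ (2 / 3 : ℝ) * Real.sqrt X := by ring
    _ ≤ 50 * L ^ (2 / 3 : ℝ) * Real.sqrt X := by
        apply mul_le_mul_of_nonneg_right _ (Real.sqrt_nonneg _)
        apply mul_le_mul_of_nonneg_right _ (by positivity)
        norm_num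

end Pool.Agent.H48Sid
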